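import Mathlib
import Pool.Agent.R945.LD.BThree

set_option autoImplicit false

namespace Pool.Agent.Results.MP_4f0cf1_nt.Full

open Finset Matrix Pool.Agent.R945.LD NumberField Module

/-- the matrix `[(j+k|p) + (j-k|p) + (jk|p)]`, `1 ≤ j, k ≤ (p-1)/2` -/
def M (p : ℕ) [Fact p.Prime] : Matrix (Fin ((p - 1) / 2)) (Fin ((p - 1) / 2)) ℤ :=
  Matrix.of fun j k =>
    legendreSym p (((j : ℤ) + 1) + ((k : ℤ) + 1)) + legendreSym p (((j : ℤ) + 1) - ((k : ℤ) + 1))
      + legendreSym p (((j : ℤ) + 1) * ((k : ℤ) + 1))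

lemma M_det (p : ℕ) [Fact p.Prime] (m : ℕ) (hm : p = 2 * m + 1) :
    (M p).det = (Matrix.of fun j k : Fin m => Bm p m ℤ j k + xv p m ℤ j * xv p m ℤ k).det := by
  have hm1 : (p - 1) / 2 = m := by omega
  unfold M
  rw [hm1]
  congr 1
  ext j k
  simp only [Matrix.of_apply, Bm, xv, R945.LD.J, Int.cast_id]
  unfold legendreSym
  push_cast
  rw [map_mul]

lemma half_sum (p : ℕ) [Fact p.Prime] (h5 : 5 ≤ p) (h3 : p % 4 = 3) (m : ℕ) (hm : p = 2 * m + 1)
    (K : Type) [Field K] [NumberField K] (h2 : finrank ℚ K = 2) (β : K) (hβ : β ^ 2 = -(p : K)) :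
    ∑ j, xv p m ℤ j = (2 - q p 2) * (classNumber K : ℤ) := by
  have h1 := Pool.Agent.R441.CN.classNumber_three h5 h3 K h2 β hβ
  have h4 := Pool.Agent.R343.CFP.S_T p h3
  have h6 := Pool.Agent.R343.CFP.S_range p m hm (by omega)
  have h7 : ∑ j, xv p m ℤ j = Pool.Agent.R343.CFP.S p := by
    rw [h6, ← Fin.sum_univ_eq_sum_range (fun s => jacobiSym ((s + 1 : ℕ) : ℤ) p)]
    apply Finset.sum_congr rfl
    intro j _
    rw [← jacobiSym.legendreSym.to_jacobiSym]
    simp only [xv, R945.LD.J, Int.cast_id]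
    unfold legendreSym
    push_cast
    rfl
  have h8 : jacobiSym 2 p = q p 2 := by
    rw [← jacobiSym.legendreSym.to_jacobiSym]
    unfold legendreSym
    push_cast
    rfl
  rw [h7]
  have hp0 : (p : ℤ) ≠ 0 := by omega
  apply mul_left_cancel₀ hp0
  rw [h4, h8]
  linear_combination (-(2 - q p 2)) * h1

theorem result (p : ℕ) [Fact p.Prime] (h5 : 3 < p) :
    (p % 4 = 1 → (M p).det = legendreSym p 2 * (p : ℤ) ^ ((p - 5) / 4)) ∧
    (p % 4 = 3 → ∀ (K : Type) [Field K] [NumberField K], finrank ℚ K = 2 →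
      (∃ β : K, β ^ 2 = -(p : K)) →
      (M p).det = (-1) ^ ((classNumber K - 1) / 2) *
        (1 - (2 - legendreSym p 2) * (classNumber K : ℤ)) * (p : ℤ) ^ ((p - 3) / 4)) := by
  have hp : p.Prime := Fact.out
  obtain ⟨m, hm⟩ : ∃ m, p = 2 * m + 1 := by
    rcases hp.eq_two_or_odd with h | h
    · omega
    · exact ⟨p / 2, by omega⟩
  have hL : legendreSym p 2 = q p 2 := by unfold legendreSym; push_cast; rfl
  constructor
  · intro h1
    rw [M_det p m hm, hL]
    have h := det_four h1 hm (0 : ℤ) 0 0 1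
    have e : (Matrix.of fun j k : Fin m => Bm p m ℤ j k + xv p m ℤ j * xv p m ℤ k) =
        (Matrix.of fun j k : Fin m => 0 + Bm p m ℤ j k + xv p m ℤ j * 0 + xv p m ℤ k * 0
          + xv p m ℤ j * xv p m ℤ k * 1) := by
      ext j k; simp
    rw [e, h, det_B h1 hm]
    have e1 : m / 2 - 1 = (p - 5) / 4 := by omega
    have hq2 : q p 2 = (-1) ^ ((p - 1) / 4) := by
      show quadraticChar (ZMod p) 2 = _
      rw [quadraticChar_two (ringChar_ne (by omega)), ZMod.card, ZMod.χ₈_nat_eq_if_mod_eight]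
      rcases Nat.even_or_odd ((p - 1) / 4) with ⟨s, hs⟩ | ⟨s, hs⟩
      · rw [if_neg (by omega), if_pos (by omega), Even.neg_one_pow ⟨s, hs⟩]
      · rw [if_neg (by omega), if_neg (by omega), Odd.neg_one_pow ⟨s, hs⟩]
    rw [e1, hq2, show (p - 1) / 4 = (p - 5) / 4 + 1 by omega, pow_succ, neg_pow (p : ℤ)]
    ring
  · intro h3 K _ _ h2 ⟨β, hβ⟩
    rw [M_det p m hm, hL, det_BX h3 hm]
    have hS := half_sum p (by omega) h3 m hm K h2 β hβ
    rw [det_B_three h3 hm (by omega) (classNumber K) hS, hS]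
    ring

end Pool.Agent.Results.MP_4f0cf1_nt.Full
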